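import Pool.Agent.BEL.StmtsP

/-!
# Squad BEL (MP_be01ff_an), row LIN: from `L^2` to `L^∞`
-/

namespace Pool.Agent.BEL.H24

open Set Filter Topology MeasureTheory
open scoped InnerProductSpace ENNReal
open Pool.Agent.BE01

noncomputable section

variable {d : ℕ} {Ω : Set (En d)}

/-- The heat semigroup has a value at every time `t ≥ 0`. -/
theorem heat_exists (b : HilbertBasis ℕ ℝ (Lp ℝ 2 (mu Ω))) (om : ℕ → ℝ) (t : ℝ) (ht : 0 ≤ t)
    (g : Lp ℝ 2 (mu Ω)) : ∃ w : Lp ℝ 2 (mu Ω), Heat b om t g w := by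
  have h2 : (0 : ℝ) < ((2 : ℝ≥0∞)).toReal := by norm_num
  have hs := (lp.memℓp (b.repr g)).summable h2
  have hm : Memℓp (fun k => Real.exp (-(t * om k ^ 2)) * (b.repr g) k) 2 := by
    refine memℓp_gen (hs.of_nonneg_of_le (fun i => by positivity) fun i => ?_)
    refine Real.rpow_le_rpow (norm_nonneg _) ?_ h2.le
    rw [norm_mul]
    have h1 : ‖Real.exp (-(t * om i ^ 2))‖ ≤ 1 := by
      rw [Real.norm_eq_abs, abs_of_pos (Real.exp_pos _)]
      exact Real.exp_le_one_iff.2 (neg_nonpos.2 (mul_nonneg ht (sq_nonneg _)))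
    exact mul_le_of_le_one_left (norm_nonneg _) h1
  refine ⟨b.repr.symm ⟨_, hm⟩, fun k => ?_⟩
  rw [← b.repr_apply_apply, ← b.repr_apply_apply, LinearIsometryEquiv.apply_symm_apply]

/-- The heat semigroup is symmetric. -/
theorem heat_symm (b : HilbertBasis ℕ ℝ (Lp ℝ 2 (mu Ω))) (om : ℕ → ℝ) (t : ℝ)
    {f u g w : Lp ℝ 2 (mu Ω)} (hu : Heat b om t f u) (hw : Heat b om t g w) :
    ⟪g, u⟫_ℝ = ⟪w, f⟫_ℝ := by
  rw [← b.tsum_inner_mul_inner g u, ← b.tsum_inner_mul_inner w f]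
  refine tsum_congr fun k => ?_
  rw [hu k, real_inner_comm (b k) w, hw k, real_inner_comm (b k) g]
  ring

theorem mu_finite (hΩ : Dom Ω) : IsFiniteMeasure (mu Ω) := by
  refine ⟨?_⟩
  rw [mu, Measure.restrict_apply_univ]
  exact hΩ.2.1.measure_lt_top

/-- One sided bound. -/
theorem upper (b : HilbertBasis ℕ ℝ (Lp ℝ 2 (mu Ω))) (om : ℕ → ℝ) (hΩ : Dom Ω) (t K : ℝ)
    (ht : 0 ≤ t) (hU : ∀ f u : Lp ℝ 2 (mu Ω), Heat b om t f u → ‖u‖ ≤ K * ∫ x, |f x| ∂(mu Ω))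
    (f u : Lp ℝ 2 (mu Ω)) (hu : Heat b om t f u) : ∀ᵐ x ∂(mu Ω), u x ≤ K * ‖f‖ := by
  have := mu_finite hΩ
  have hA : MeasurableSet {x | K * ‖f‖ < u x} :=
    measurableSet_lt measurable_const (Lp.stronglyMeasurable u).measurable
  have hAt : mu Ω {x | K * ‖f‖ < u x} ≠ ⊤ := measure_ne_top _ _
  obtain ⟨w, hw⟩ := heat_exists b om t ht (indicatorConstLp 2 hA hAt (1 : ℝ))
  have h1 := heat_symm b om t hu hw
  rw [L2.inner_indicatorConstLp_one] at h1
  have h2 : ∫ x, |(indicatorConstLp 2 hA hAt (1 : ℝ) : Lp ℝ 2 (mu Ω)) x| ∂(mu Ω) =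
      (mu Ω).real {x | K * ‖f‖ < u x} := by
    have h3 : ∀ᵐ x ∂(mu Ω), |(indicatorConstLp 2 hA hAt (1 : ℝ) : Lp ℝ 2 (mu Ω)) x| =
        {x | K * ‖f‖ < u x}.indicator (fun _ => (1 : ℝ)) x := by
      filter_upwards [indicatorConstLp_coeFn (p := 2) (hs := hA) (hμs := hAt) (c := (1 : ℝ))]
        with x hx
      rw [hx]
      by_cases hx' : x ∈ {x | K * ‖f‖ < u x}
      · rw [indicator_of_mem hx', abs_one]
      · rw [indicator_of_notMem hx', abs_zero]
    rw [integral_congr_ae h3, integral_indicator hA, setIntegral_const, smul_eq_mul, mul_one]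
  have h4 : ∫ x in {x | K * ‖f‖ < u x}, u x ∂(mu Ω) ≤
      K * ‖f‖ * (mu Ω).real {x | K * ‖f‖ < u x} := by
    rw [h1]
    refine (real_inner_le_norm _ _).trans ?_
    refine (mul_le_mul_of_nonneg_right (hU _ _ hw) (norm_nonneg _)).trans (le_of_eq ?_)
    rw [h2]
    ring
  have hui : Integrable (fun x => u x) (mu Ω) :=
    (Lp.memLp u).integrable (by norm_num)
  have h5 : ∫ x in {x | K * ‖f‖ < u x}, (u x - K * ‖f‖) ∂(mu Ω) ≤ 0 := by
    rw [integral_sub hui.integrableOn (integrable_const _), setIntegral_const, smul_eq_mul]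
    linarith [mul_comm (K * ‖f‖) ((mu Ω).real {x | K * ‖f‖ < u x})]
  have h6 : ∀ᵐ x ∂(mu Ω).restrict {x | K * ‖f‖ < u x}, K * ‖f‖ < u x :=
    ae_restrict_mem hA
  have h7 : ∫ x in {x | K * ‖f‖ < u x}, (u x - K * ‖f‖) ∂(mu Ω) = 0 :=
    le_antisymm h5 (integral_nonneg_of_ae (by
      filter_upwards [h6] with x hx
      exact (sub_pos.2 hx).le))
  have hi7 : Integrable (fun x => u x - K * ‖f‖) ((mu Ω).restrict {x | K * ‖f‖ < u x}) :=
    hui.integrableOn.sub (integrable_const _)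
  have h70 : 0 ≤ᵐ[(mu Ω).restrict {x | K * ‖f‖ < u x}] fun x => u x - K * ‖f‖ := by
    filter_upwards [h6] with x hx
    exact (sub_pos.2 hx).le
  have h71 := (integral_eq_zero_iff_of_nonneg_ae h70 hi7).1 h7
  have h8 : ∀ᵐ x ∂(mu Ω).restrict {x | K * ‖f‖ < u x}, False := by
    filter_upwards [h6, h71] with x hx hx'
    have h9 : u x - K * ‖f‖ = 0 := hx'
    linarith
  have h9 : mu Ω {x | K * ‖f‖ < u x} = 0 := by
    rw [ae_iff] at h8
    simpa using h8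
  rw [ae_iff]
  simpa using h9

theorem lin (hULT : UltStmt) : LinStmt := by
  intro d Ω ι b e om hd hΩ hE hS
  obtain ⟨C, hC, hU⟩ := hULT d Ω ι b e om hd hΩ hE hS
  refine ⟨C, hC, fun t f u ht hu => ?_⟩
  have h1 := upper b om hΩ t (C * t ^ (-((d : ℝ) / 4))) ht.le (fun f u h => hU t f u ht h) f u hu
  have hn : Heat b om t (-f) (-u) := by
    intro k
    rw [inner_neg_right, inner_neg_right, hu k]
    ring
  have h2 := upper b om hΩ t (C * t ^ (-((d : ℝ) / 4))) ht.le (fun f u h => hU t f u ht h)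
    (-f) (-u) hn
  filter_upwards [h1, h2, Lp.coeFn_neg u] with x hx1 hx2 hx3
  rw [hx3, norm_neg] at hx2
  have hx4 : (-⇑u) x = - u x := rfl
  rw [hx4] at hx2
  exact abs_le.2 ⟨by linarith, hx1⟩

end

end Pool.Agent.BEL.H24
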